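import Mathlib

set_option autoImplicit false

namespace Pool.Agent.Helper815.Pebble

abbrev VT (mm t : ℕ) : Type := {s : Finset (Fin mm) // s.card = t}

variable {mm t : ℕ}

/-- one pebbling move -/
def Mv (A B : VT mm t → ℕ) : Prop :=
  ∃ u v : VT mm t, u ≠ v ∧ Disjoint u.1 v.1 ∧ B + Pi.single u 2 = A + Pi.single v 1

/-- from `A` one can reach a configuration dominating `B` -/
def PR (A B : VT mm t → ℕ) : Prop := ∃ A', Relation.ReflTransGen Mv A A' ∧ B ≤ A'

lemma Mv_add {A B : VT mm t → ℕ} (C : VT mm t → ℕ) (h : Mv A B) : Mv (A + C) (B + C) := by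
  obtain ⟨u, v, h1, h2, h3⟩ := h
  refine ⟨u, v, h1, h2, ?_⟩
  calc B + C + Pi.single u 2 = (B + Pi.single u 2) + C := by abel
    _ = (A + Pi.single v 1) + C := by rw [h3]
    _ = A + C + Pi.single v 1 := by abel

lemma RT_add {A B : VT mm t → ℕ} (C : VT mm t → ℕ) (h : Relation.ReflTransGen Mv A B) :
    Relation.ReflTransGen Mv (A + C) (B + C) := by
  induction h with
  | refl => exact Relation.ReflTransGen.refl
  | tail _ hbc ih => exact ih.tail (Mv_add C hbc)

lemma PR_of_le {A B : VT mm t → ℕ} (h : B ≤ A) : PR A B := ⟨A, Relation.ReflTransGen.refl, h⟩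

lemma PR_trans {A B C : VT mm t → ℕ} (h1 : PR A B) (h2 : PR B C) : PR A C := by
  obtain ⟨A', hA, hBA⟩ := h1
  obtain ⟨B', hB, hCB⟩ := h2
  refine ⟨B' + (A' - B), ?_, le_trans hCB (by intro x; simp)⟩
  have := RT_add (A' - B) hB
  have e : B + (A' - B) = A' := by
    funext x
    simp only [Pi.add_apply, Pi.sub_apply]
    exact Nat.add_sub_cancel' (hBA x)
  rw [e] at this
  exact hA.trans this

lemma PR_add_right {A B : VT mm t → ℕ} (C : VT mm t → ℕ) (h : PR A B) : PR (A + C) (B + C) := by
  obtain ⟨A', hA, hBA⟩ := h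
  exact ⟨A' + C, RT_add C hA, by intro x; simpa using hBA x⟩

lemma PR_add {A B C D : VT mm t → ℕ} (h1 : PR A B) (h2 : PR C D) : PR (A + C) (B + D) := by
  refine PR_trans (PR_add_right C h1) ?_
  have := PR_add_right B h2
  rw [add_comm C B, add_comm D B] at this
  exact this

lemma PR_sum {ι : Type} (S : Finset ι) (f g : ι → VT mm t → ℕ) (h : ∀ i ∈ S, PR (f i) (g i)) :
    PR (∑ i ∈ S, f i) (∑ i ∈ S, g i) := by
  classical
  induction S using Finset.induction_on with
  | empty => simpa using PR_of_le le_rfl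
  | insert a S ha ih =>
    rw [Finset.sum_insert ha, Finset.sum_insert ha]
    exact PR_add (h a (Finset.mem_insert_self _ _))
      (ih (fun i hi => h i (Finset.mem_insert_of_mem hi)))

lemma PR_move {u v : VT mm t} (hne : u ≠ v) (hd : Disjoint u.1 v.1) (q : ℕ) :
    PR (Pi.single u (2 * q)) (Pi.single v q : VT mm t → ℕ) := by
  induction q with
  | zero => simpa using PR_of_le le_rfl
  | succ q ih =>
    have e1 : (Pi.single u (2 * (q + 1)) : VT mm t → ℕ) = Pi.single u (2 * q) + Pi.single u 2 := by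
      rw [← Pi.single_add]; ring_nf
    have e2 : (Pi.single v (q + 1) : VT mm t → ℕ) = Pi.single v q + Pi.single v 1 := by
      rw [← Pi.single_add]
    rw [e1, e2]
    apply PR_add ih
    refine ⟨Pi.single v 1, Relation.ReflTransGen.single ⟨u, v, hne, hd, ?_⟩, le_rfl⟩
    exact add_comm _ _

lemma single_mono {u : VT mm t} {a b : ℕ} (h : a ≤ b) : (Pi.single u a : VT mm t → ℕ) ≤ Pi.single u b := by
  intro x
  by_cases hx : x = u
  · subst hx; simpa using h
  · simp [Pi.single_eq_of_ne hx]

variable [hm : Fact (2 * t + 1 ≤ mm)]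

omit hm in
lemma ne_of_disj (ht : 1 ≤ t) {u v : VT mm t} (hd : Disjoint u.1 v.1) : u ≠ v := by
  rintro rfl
  rw [disjoint_self] at hd
  have := u.2
  rw [hd] at this
  simp at this
  omega

lemma PR_J1 {u v : VT mm t} (h : (u.1 \ v.1).card ≤ 1) (q : ℕ) :
    PR (Pi.single u (4 * q)) (Pi.single v q : VT mm t → ℕ) := by
  by_cases huv : u = v
  · subst huv
    exact PR_of_le (single_mono (by omega))
  · have ht : 1 ≤ t := by
      by_contra h0
      have h0 : t = 0 := by omega
      subst h0
      apply huv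
      apply Subtype.ext
      rw [Finset.card_eq_zero.mp u.2, Finset.card_eq_zero.mp v.2]
    have hun : (u.1 ∪ v.1).card ≤ t + 1 := by
      have h1 : u.1 ∪ v.1 = v.1 ∪ (u.1 \ v.1) := by
        ext x; simp; tauto
      rw [h1]
      refine (Finset.card_union_le _ _).trans ?_
      rw [v.2]; omega
    have hcompl : t ≤ ((u.1 ∪ v.1)ᶜ).card := by
      have hm' := hm.out
      rw [Finset.card_compl, Fintype.card_fin]; omega
    obtain ⟨w, hw, hwc⟩ := Finset.exists_subset_card_eq hcompl
    have hd1 : Disjoint u.1 w := by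
      rw [Finset.disjoint_left]
      intro x hx hxw
      have := hw hxw
      simp at this
      exact this.1 hx
    have hd2 : Disjoint w v.1 := by
      rw [Finset.disjoint_left]
      intro x hxw hx
      have := hw hxw
      simp at this
      exact this.2 hx
    have m1 := PR_move (u := u) (v := ⟨w, hwc⟩) (ne_of_disj ht hd1) hd1 (2 * q)
    have m2 := PR_move (u := ⟨w, hwc⟩) (v := v) (ne_of_disj ht hd2) hd2 q
    have e : 4 * q = 2 * (2 * q) := by ring
    rw [e]
    exact PR_trans m1 m2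

lemma PR_J2 {u v : VT mm t} (h : (u.1 \ v.1).card ≤ 2) (q : ℕ) :
    PR (Pi.single u (16 * q)) (Pi.single v q : VT mm t → ℕ) := by
  by_cases h1 : (u.1 \ v.1).card ≤ 1
  · refine PR_trans ?_ (PR_J1 h1 q)
    exact PR_of_le (single_mono (by omega))
  · -- choose a in u \ v and b in v \ u
    have hpos : 0 < (u.1 \ v.1).card := by omega
    obtain ⟨a, ha⟩ := Finset.card_pos.mp hpos
    have hcard : (v.1 \ u.1).card = (u.1 \ v.1).card := by
      have e1 := Finset.card_sdiff_add_card_inter u.1 v.1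
      have e2 := Finset.card_sdiff_add_card_inter v.1 u.1
      rw [Finset.inter_comm] at e2
      rw [u.2] at e1
      rw [v.2] at e2
      omega
    obtain ⟨b, hb⟩ := Finset.card_pos.mp (hcard ▸ hpos)
    rw [Finset.mem_sdiff] at ha hb
    have hba : b ∉ u.1.erase a := fun hx => hb.2 (Finset.mem_of_mem_erase hx)
    have hwc : (insert b (u.1.erase a)).card = t := by
      rw [Finset.card_insert_of_notMem hba, Finset.card_erase_of_mem ha.1, u.2]
      have := Finset.card_pos.mpr ⟨a, ha.1⟩
      rw [u.2] at this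
      omega
    have s1 : (u.1 \ (insert b (u.1.erase a))).card ≤ 1 := by
      have : u.1 \ (insert b (u.1.erase a)) ⊆ {a} := by
        intro x hx
        simp at hx ⊢
        by_contra hxa
        exact hx.2.2 hxa hx.1
      simpa using Finset.card_le_card this
    have s2 : ((insert b (u.1.erase a)) \ v.1).card ≤ 1 := by
      have hsub : (insert b (u.1.erase a)) \ v.1 ⊆ (u.1 \ v.1).erase a := by
        intro x hx
        simp at hx ⊢
        rcases hx with ⟨rfl | hx, hv⟩
        · exact absurd hb.1 hv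
        · exact ⟨hx.1, hx.2, hv⟩
      have h3 := Finset.card_le_card hsub
      rw [Finset.card_erase_of_mem (Finset.mem_sdiff.mpr ha)] at h3
      omega
    have m1 := PR_J1 (u := u) (v := ⟨insert b (u.1.erase a), hwc⟩) s1 (4 * q)
    have m2 := PR_J1 (u := ⟨insert b (u.1.erase a), hwc⟩) (v := v) s2 q
    have e : 16 * q = 4 * (4 * q) := by ring
    rw [e]
    exact PR_trans m1 m2

/-- transport along a map -/
lemma PR_transport (S : Finset (VT mm t)) (f : VT mm t → VT mm t) (m : ℕ)
    (hf : ∀ u ∈ S, ∀ q : ℕ, PR (Pi.single u (m * q)) (Pi.single (f u) q : VT mm t → ℕ)) (D : VT mm t → ℕ) :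
    PR D (∑ u ∈ S, Pi.single (f u) (D u / m)) := by
  refine PR_trans ?_ (PR_sum S (fun u => Pi.single u (m * (D u / m)))
    (fun u => Pi.single (f u) (D u / m)) (fun u hu => hf u hu _))
  apply PR_of_le
  intro x
  rw [Finset.sum_apply]
  simp only [Pi.single_apply]
  rw [Finset.sum_ite_eq]
  split_ifs
  · exact Nat.mul_div_le _ _
  · exact Nat.zero_le _


/-- action of a permutation on vertices -/
def act (σ : Equiv.Perm (Fin mm)) (v : VT mm t) : VT mm t :=
  ⟨v.1.map σ.toEmbedding, by rw [Finset.card_map]; exact v.2⟩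

lemma act_sdiff (σ : Equiv.Perm (Fin mm)) (u v : VT mm t) :
    ((act σ u).1 \ (act σ v).1).card = (u.1 \ v.1).card := by
  have : (act σ u).1 \ (act σ v).1 = (u.1 \ v.1).map σ.toEmbedding := by
    simp only [act]
    ext x
    simp only [Finset.mem_sdiff, Finset.mem_map_equiv]
  rw [this, Finset.card_map]

lemma act_inj (σ : Equiv.Perm (Fin mm)) : Function.Injective (act (t := t) σ) := by
  intro u v h
  apply Subtype.ext
  have := congrArg Subtype.val h
  exact Finset.map_injective _ this

lemma act_one (v : VT mm t) : act 1 v = v := by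
  apply Subtype.ext
  simp only [act]
  ext x
  rw [Finset.mem_map_equiv]
  rfl

lemma act_mul (σ τ : Equiv.Perm (Fin mm)) (v : VT mm t) : act (σ * τ) v = act σ (act τ v) := by
  apply Subtype.ext
  simp only [act]
  rw [Finset.map_map]
  rfl

/-- the stabiliser of the root -/
def Stab (r : VT mm t) : Finset (Equiv.Perm (Fin mm)) :=
  Finset.univ.filter (fun σ => act σ r = r)

/-- the good property of a family of vertices -/
def Good (r : VT mm t) (M : Finset (VT mm t)) : Prop :=
  ∀ σ ∈ Stab r, ∀ D : VT mm t → ℕ, 27 * M.card ≤ ∑ v ∈ M, D (act σ v) → PR D (Pi.single r 1)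

lemma good_base (r : VT mm t) : Good r {r} := by
  intro σ hσ D hD
  rw [Stab, Finset.mem_filter] at hσ
  simp only [Finset.card_singleton, Finset.sum_singleton, hσ.2] at hD
  apply PR_of_le
  intro x
  by_cases hx : x = r
  · subst hx; simp; omega
  · simp [Pi.single_eq_of_ne hx]

lemma good_step (r : VT mm t) (M M' : Finset (VT mm t)) (hM : Good r M) (par : VT mm t → VT mm t)
    (hpar : ∀ v ∈ M', par v ∈ M ∧ (v.1 \ (par v).1).card ≤ 2) (hcard : 36 * M.card ≤ M'.card) :
    Good r M' := by
  intro σ hσ D hD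
  -- push down
  have h1 : PR D (∑ v ∈ M', Pi.single (act σ (par v)) (D (act σ v) / 16) : VT mm t → ℕ) := by
    have hA : PR D (∑ v ∈ M', Pi.single (act σ v) (16 * (D (act σ v) / 16)) : VT mm t → ℕ) := by
      apply PR_of_le
      intro x
      rw [Finset.sum_apply]
      by_cases hx : ∃ v ∈ M', act σ v = x
      · obtain ⟨v, hv, rfl⟩ := hx
        rw [Finset.sum_eq_single v]
        · simp only [Pi.single_eq_same]; exact Nat.mul_div_le _ _
        · intro b _ hb
          rw [Pi.single_eq_of_ne]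
          intro h
          exact hb (act_inj σ h).symm
        · intro h; exact absurd hv h
      · rw [Finset.sum_eq_zero]
        · exact Nat.zero_le _
        · intro v hv
          rw [Pi.single_eq_of_ne]
          intro h
          exact hx ⟨v, hv, h.symm⟩
    refine PR_trans hA (PR_sum _ _ _ ?_)
    intro v hv
    apply PR_J2
    rw [act_sdiff]
    exact (hpar v hv).2
  refine PR_trans h1 (hM σ hσ _ ?_)
  -- count
  have h2 : ∑ u ∈ M, (∑ v ∈ M', Pi.single (act σ (par v)) (D (act σ v) / 16) : VT mm t → ℕ) (act σ u)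
      = ∑ v ∈ M', D (act σ v) / 16 := by
    simp only [Finset.sum_apply]
    rw [Finset.sum_comm]
    apply Finset.sum_congr rfl
    intro v hv
    rw [Finset.sum_eq_single (par v)]
    · simp
    · intro b _ hb
      rw [Pi.single_eq_of_ne]
      intro h
      exact hb (act_inj σ h)
    · intro h; exact absurd (hpar v hv).1 h
  rw [h2]
  have h3 : ∑ v ∈ M', D (act σ v) ≤ ∑ v ∈ M', (16 * (D (act σ v) / 16) + 15) := by
    apply Finset.sum_le_sum
    intro v _
    omega
  rw [Finset.sum_add_distrib, ← Finset.mul_sum, Finset.sum_const, smul_eq_mul] at h3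
  omega

/-- averaging -/
lemma exists_perm (r v v' : VT mm t) (h : (r.1 \ v.1).card = (r.1 \ v'.1).card) :
    ∃ τ : Equiv.Perm (Fin mm), act τ r = r ∧ act τ v = v' := by
  classical
  let f : Fin mm → Bool × Bool := fun x => (decide (x ∈ r.1), decide (x ∈ v.1))
  let g : Fin mm → Bool × Bool := fun x => (decide (x ∈ r.1), decide (x ∈ v'.1))
  have hcard : ∀ c : Bool × Bool, Fintype.card {x // f x = c} = Fintype.card {x // g x = c} := by
    have key : ∀ w : VT mm t, (r.1 \ w.1).card + (r.1 ∩ w.1).card = t ∧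
        (w.1 \ r.1).card + (r.1 ∩ w.1).card = t ∧
        ((r.1 ∪ w.1)ᶜ).card + (w.1 \ r.1).card + t = mm := by
      intro w
      have e1 := Finset.card_sdiff_add_card_inter r.1 w.1
      have e2 := Finset.card_sdiff_add_card_inter w.1 r.1
      have e3 := Finset.card_union_add_card_inter r.1 w.1
      have e4 : ((r.1 ∪ w.1)ᶜ).card = mm - (r.1 ∪ w.1).card := by
        rw [Finset.card_compl, Fintype.card_fin]
      have e5 : (r.1 ∪ w.1).card ≤ mm := by
        simpa using Finset.card_le_univ (r.1 ∪ w.1)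
      rw [Finset.inter_comm w.1 r.1] at e2
      rw [r.2] at e1 e3
      rw [w.2] at e2 e3
      omega
    have k1 := key v
    have k2 := key v'
    rintro ⟨a, b⟩
    rw [Fintype.card_subtype, Fintype.card_subtype]
    cases a <;> cases b
    · have q1 : Finset.univ.filter (fun x => f x = (false, false)) = (r.1 ∪ v.1)ᶜ := by
        ext x; simp [f]
      have q2 : Finset.univ.filter (fun x => g x = (false, false)) = (r.1 ∪ v'.1)ᶜ := by
        ext x; simp [g]
      rw [q1, q2]; omega
    · have q1 : Finset.univ.filter (fun x => f x = (false, true)) = v.1 \ r.1 := by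
        ext x; simp [f]; tauto
      have q2 : Finset.univ.filter (fun x => g x = (false, true)) = v'.1 \ r.1 := by
        ext x; simp [g]; tauto
      rw [q1, q2]; omega
    · have q1 : Finset.univ.filter (fun x => f x = (true, false)) = r.1 \ v.1 := by
        ext x; simp [f]
      have q2 : Finset.univ.filter (fun x => g x = (true, false)) = r.1 \ v'.1 := by
        ext x; simp [g]
      rw [q1, q2]; omega
    · have q1 : Finset.univ.filter (fun x => f x = (true, true)) = r.1 ∩ v.1 := by
        ext x; simp [f]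
      have q2 : Finset.univ.filter (fun x => g x = (true, true)) = r.1 ∩ v'.1 := by
        ext x; simp [g]
      rw [q1, q2]; omega
  let e : ∀ c : Bool × Bool, {x // f x = c} ≃ {x // g x = c} :=
    fun c => Fintype.equivOfCardEq (hcard c)
  let τ : Equiv.Perm (Fin mm) := Equiv.ofFiberEquiv e
  have hτ : ∀ x, g (τ x) = f x := fun x => Equiv.ofFiberEquiv_map e x
  have hr : ∀ x, τ x ∈ r.1 ↔ x ∈ r.1 := by
    intro x
    have := congrArg Prod.fst (hτ x)
    simpa [f, g] using this
  have hv : ∀ x, τ x ∈ v'.1 ↔ x ∈ v.1 := by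
    intro x
    have := congrArg Prod.snd (hτ x)
    simpa [f, g] using this
  refine ⟨τ, ?_, ?_⟩
  · apply Subtype.ext
    simp only [act]
    ext x
    rw [Finset.mem_map_equiv]
    have := hr (τ.symm x)
    simpa using this.symm
  · apply Subtype.ext
    simp only [act]
    ext x
    rw [Finset.mem_map_equiv]
    have := hv (τ.symm x)
    simpa using this.symm

lemma stab_one (r : VT mm t) : (1 : Equiv.Perm (Fin mm)) ∈ Stab r := by
  rw [Stab, Finset.mem_filter]
  exact ⟨Finset.mem_univ _, act_one r⟩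

lemma sum_act_const (r v v' : VT mm t) (h : (r.1 \ v.1).card = (r.1 \ v'.1).card) (D : VT mm t → ℕ) :
    ∑ σ ∈ Stab r, D (act σ v) = ∑ σ ∈ Stab r, D (act σ v') := by
  obtain ⟨τ, h1, h2⟩ := exists_perm r v v' h
  symm
  apply Finset.sum_bij (fun σ _ => σ * τ)
  · intro σ hσ
    rw [Stab, Finset.mem_filter] at hσ ⊢
    refine ⟨Finset.mem_univ _, ?_⟩
    rw [act_mul, h1, hσ.2]
  · intro a _ b _ hab
    exact mul_right_cancel hab
  · intro b hb
    refine ⟨b * τ⁻¹, ?_, by simp⟩
    rw [Stab, Finset.mem_filter] at hb ⊢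
    refine ⟨Finset.mem_univ _, ?_⟩
    rw [act_mul]
    have : act τ⁻¹ r = r := by
      apply act_inj τ
      rw [← act_mul, h1]
      simp only [mul_inv_cancel]
      exact (Finset.mem_filter.mp (stab_one r)).2
    rw [this, hb.2]
  · intro σ _
    rw [act_mul, h2]

/-- the sphere in the Johnson metric -/
def Sph (r : VT mm t) (j : ℕ) : Finset (VT mm t) := Finset.univ.filter (fun v => (r.1 \ v.1).card = j)

lemma averaging (r : VT mm t) (j : ℕ) (M : Finset (VT mm t)) (hM : M ⊆ Sph r j) (κ : ℕ)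
    (D : VT mm t → ℕ) (hD : κ * (Sph r j).card ≤ ∑ v ∈ Sph r j, D v) :
    ∃ σ ∈ Stab r, κ * M.card ≤ ∑ v ∈ M, D (act σ v) := by
  by_contra hcon
  push Not at hcon
  rcases M.eq_empty_or_nonempty with rfl | ⟨v0, hv0⟩
  · have := hcon 1 (stab_one r)
    simp at this
  have hS : ∀ σ ∈ Stab r, ∑ v ∈ Sph r j, D (act σ v) = ∑ v ∈ Sph r j, D v := by
    intro σ hσ
    rw [Stab, Finset.mem_filter] at hσ
    apply Finset.sum_bij (fun v _ => act σ v)
    · intro v hv
      rw [Sph, Finset.mem_filter] at hv ⊢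
      refine ⟨Finset.mem_univ _, ?_⟩
      rw [← hv.2]
      conv_lhs => rw [← hσ.2]
      exact act_sdiff σ r v
    · intro a _ b _ hab
      exact act_inj σ hab
    · intro b hb
      refine ⟨act σ⁻¹ b, ?_, ?_⟩
      · rw [Sph, Finset.mem_filter] at hb ⊢
        refine ⟨Finset.mem_univ _, ?_⟩
        rw [← hb.2, ← act_sdiff σ r (act σ⁻¹ b), hσ.2, ← act_mul]
        simp only [mul_inv_cancel]
        rw [act_one]
      · rw [← act_mul]
        simp only [mul_inv_cancel]
        rw [act_one]
    · intro _ _; rfl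
  set N := ∑ σ ∈ Stab r, D (act σ v0) with hN
  have hconst : ∀ v ∈ Sph r j, ∑ σ ∈ Stab r, D (act σ v) = N := by
    intro v hv
    apply sum_act_const
    rw [Sph, Finset.mem_filter] at hv
    have := hM hv0
    rw [Sph, Finset.mem_filter] at this
    rw [hv.2, this.2]
  have e1 : (Sph r j).card * N = (Stab r).card * ∑ v ∈ Sph r j, D v := by
    have : ∑ v ∈ Sph r j, ∑ σ ∈ Stab r, D (act σ v) = (Sph r j).card * N := by
      rw [Finset.sum_congr rfl hconst, Finset.sum_const, smul_eq_mul]
    rw [← this, Finset.sum_comm, Finset.sum_congr rfl hS, Finset.sum_const, smul_eq_mul]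
  have e2 : M.card * N = ∑ σ ∈ Stab r, ∑ v ∈ M, D (act σ v) := by
    rw [Finset.sum_comm, Finset.sum_congr rfl (fun v hv => hconst v (hM hv)), Finset.sum_const,
      smul_eq_mul]
  have e3 : ∑ σ ∈ Stab r, ∑ v ∈ M, D (act σ v) < ∑ σ ∈ Stab r, κ * M.card :=
    Finset.sum_lt_sum_of_nonempty ⟨1, stab_one r⟩ (fun σ hσ => hcon σ hσ)
  rw [← e2, Finset.sum_const, smul_eq_mul] at e3
  have e4 : M.card * ((Sph r j).card * N) < (Sph r j).card * ((Stab r).card * (κ * M.card)) := by
    have hpos : 0 < (Sph r j).card := Finset.card_pos.mpr ⟨v0, hM hv0⟩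
    calc M.card * ((Sph r j).card * N) = (Sph r j).card * (M.card * N) := by ring
      _ < _ := Nat.mul_lt_mul_of_pos_left e3 hpos
  rw [e1] at e4
  have e5 : M.card * ((Stab r).card * (κ * (Sph r j).card)) ≤
      M.card * ((Stab r).card * ∑ v ∈ Sph r j, D v) :=
    Nat.mul_le_mul_left _ (Nat.mul_le_mul_left _ hD)
  have e6 : M.card * ((Stab r).card * (κ * (Sph r j).card)) =
      (Sph r j).card * ((Stab r).card * (κ * M.card)) := by ring
  omega


lemma mem_Sph (r v : VT mm t) (j : ℕ) : v ∈ Sph r j ↔ (r.1 \ v.1).card = j := by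
  simp [Sph]

lemma blk {α : Type} [DecidableEq α] {r v X Y P Q : Finset α} (hXr : ∀ x ∈ X, x ∈ r)
    (hYr : ∀ x ∈ Y, x ∉ r) (hXv : ∀ x ∈ X, x ∈ v) (hYv : ∀ x ∈ Y, x ∉ v)
    (hP : P ⊆ X) (hQ : Q ⊆ Y) :
    (((v \ X) ∪ P ∪ Q) \ Y) ∪ X = v ∧ ((v \ X) ∪ P ∪ Q) ∩ X = P ∧ ((v \ X) ∪ P ∪ Q) ∩ Y = Q ∧
      ((v \ X) ∪ P ∪ Q) \ v ⊆ Q ∧ r \ ((v \ X) ∪ P ∪ Q) = (r \ v) ∪ (X \ P) := by
  refine ⟨?_, ?_, ?_, ?_, ?_⟩
  · ext x
    have a1 := hXv x
    have a2 := hYv x
    have b3 := @hP x
    have b4 := @hQ x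
    simp only [Finset.mem_union, Finset.mem_sdiff]
    clear hXr hYr hXv hYv hP hQ
    tauto
  · ext x
    have a1 := hXv x
    have a2 := hYv x
    have b3 := @hP x
    have b4 := @hQ x
    simp only [Finset.mem_union, Finset.mem_sdiff, Finset.mem_inter]
    clear hXr hYr hXv hYv hP hQ
    tauto
  · ext x
    have a1 := hXv x
    have a2 := hYv x
    have b3 := @hP x
    have b4 := @hQ x
    simp only [Finset.mem_union, Finset.mem_sdiff, Finset.mem_inter]
    clear hXr hYr hXv hYv hP hQ
    tauto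
  · intro x hx
    have a1 := hXv x
    have b3 := @hP x
    simp only [Finset.mem_union, Finset.mem_sdiff] at hx
    clear hXr hYr hXv hYv hP hQ
    tauto
  · ext x
    have a1 := hXv x
    have a2 := hYv x
    have a3 := hYr x
    have a4 := hXr x
    have b3 := @hP x
    have b4 := @hQ x
    simp only [Finset.mem_union, Finset.mem_sdiff]
    clear hXr hYr hXv hYv hP hQ
    tauto

lemma blk2 {α : Type} [DecidableEq α] {r v X Y P Q U U' : Finset α}
    (h1 : r \ U ⊆ v) (h2 : v ⊆ r ∪ U') (hXr : ∀ x ∈ X, x ∈ r) (hP : P ⊆ X) (hQ : Q ⊆ Y) :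
    r \ (U ∪ X) ⊆ (v \ X) ∪ P ∪ Q ∧ (v \ X) ∪ P ∪ Q ⊆ r ∪ (U' ∪ Y) := by
  refine ⟨?_, ?_⟩
  · intro x hx
    have a1 := @h1 x
    simp only [Finset.mem_union, Finset.mem_sdiff] at hx a1 ⊢
    clear h1 h2 hXr hP hQ
    tauto
  · intro x hx
    have a1 := @h2 x
    have a2 := hXr x
    have b3 := @hP x
    have b4 := @hQ x
    simp only [Finset.mem_union, Finset.mem_sdiff] at hx a1 ⊢
    clear h1 h2 hXr hP hQ
    tauto

set_option maxHeartbeats 1000000 in
lemma exists_family (r : VT mm t) (i : ℕ) : 4 * i ≤ t →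
    ∃ (M : Finset (VT mm t)) (U U' : Finset (Fin mm)), U ⊆ r.1 ∧ Disjoint U' r.1 ∧
      U.card = 4 * i ∧ U'.card = 4 * i ∧ M ⊆ Sph r (2 * i) ∧ M.Nonempty ∧ Good r M ∧
      (∀ v ∈ M, r.1 \ U ⊆ v.1 ∧ v.1 ⊆ r.1 ∪ U') := by
  induction i with
  | zero =>
    intro _
    refine ⟨{r}, ∅, ∅, by simp, by simp, by simp, by simp, ?_, by simp, good_base r, ?_⟩
    · intro v hv
      rw [Finset.mem_singleton] at hv
      subst hv
      rw [mem_Sph]; simp
    · intro v hv
      rw [Finset.mem_singleton] at hv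
      subst hv
      simp
  | succ i ih =>
    intro hi
    obtain ⟨M, U, U', hU, hU', hUc, hUc', hMS, hMne, hMg, hMv⟩ := ih (by omega)
    -- new blocks
    have hx1 : 4 ≤ (r.1 \ U).card := by
      rw [Finset.card_sdiff_of_subset hU, r.2, hUc]; omega
    obtain ⟨X, hX, hXc⟩ := Finset.exists_subset_card_eq hx1
    have hy1 : 4 ≤ ((r.1 ∪ U')ᶜ).card := by
      rw [Finset.card_compl, Fintype.card_fin]
      have := Finset.card_union_le r.1 U'
      rw [r.2, hUc'] at this
      have hm' := hm.out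
      omega
    obtain ⟨Y, hY, hYc⟩ := Finset.exists_subset_card_eq hy1
    have hXr : ∀ x ∈ X, x ∈ r.1 := fun x hx => (Finset.mem_sdiff.mp (hX hx)).1
    have hXU : ∀ x ∈ X, x ∉ U := fun x hx => (Finset.mem_sdiff.mp (hX hx)).2
    have hYr : ∀ x ∈ Y, x ∉ r.1 := fun x hx h => (Finset.mem_compl.mp (hY hx)) (Finset.mem_union_left _ h)
    have hYU : ∀ x ∈ Y, x ∉ U' := fun x hx h => (Finset.mem_compl.mp (hY hx)) (Finset.mem_union_right _ h)
    have hXv : ∀ v ∈ M, ∀ x ∈ X, x ∈ v.1 := fun v hv x hx => (hMv v hv).1 (hX hx)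
    have hYv : ∀ v ∈ M, ∀ x ∈ Y, x ∉ v.1 := by
      intro v hv x hx h
      exact (Finset.mem_compl.mp (hY hx)) ((hMv v hv).2 h)
    have hXY : ∀ x ∈ X, x ∉ Y := fun x hx hy => hYr x hy (hXr x hx)
    let M' : Finset (VT mm t) := Finset.univ.filter (fun u => ∃ v ∈ M, ∃ P ∈ Finset.powersetCard 2 X,
      ∃ Q ∈ Finset.powersetCard 2 Y, u.1 = (v.1 \ X) ∪ P ∪ Q)
    have hM' : ∀ u, u ∈ M' ↔ ∃ v ∈ M, ∃ P ∈ Finset.powersetCard 2 X,
      ∃ Q ∈ Finset.powersetCard 2 Y, u.1 = (v.1 \ X) ∪ P ∪ Q := by
      intro u; simp [M']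
    have hcardu : ∀ v ∈ M, ∀ P ∈ Finset.powersetCard 2 X, ∀ Q ∈ Finset.powersetCard 2 Y,
        ((v.1 \ X) ∪ P ∪ Q).card = t := by
      intro v hv P hP Q hQ
      rw [Finset.mem_powersetCard] at hP hQ
      have d1 : Disjoint (v.1 \ X) P := by
        rw [Finset.disjoint_left]
        intro x hx hxP
        exact (Finset.mem_sdiff.mp hx).2 (hP.1 hxP)
      have d2 : Disjoint ((v.1 \ X) ∪ P) Q := by
        rw [Finset.disjoint_left]
        intro x hx hxQ
        rcases Finset.mem_union.mp hx with h | h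
        · exact hYv v hv x (hQ.1 hxQ) (Finset.mem_sdiff.mp h).1
        · exact hXY x (hP.1 h) (hQ.1 hxQ)
      have hXsub : X ⊆ v.1 := fun x hx => hXv v hv x hx
      rw [Finset.card_union_of_disjoint d2, Finset.card_union_of_disjoint d1,
        Finset.card_sdiff_of_subset hXsub, v.2, hXc, hP.2, hQ.2]
      omega
    have hcard : 36 * M.card ≤ M'.card := by
      let T : Finset (Finset (Fin mm) × Finset (Fin mm) × Finset (Fin mm)) :=
        (M.image Subtype.val) ×ˢ (Finset.powersetCard 2 X ×ˢ Finset.powersetCard 2 Y)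
      have hT : T.card = 36 * M.card := by
        simp only [T]
        rw [Finset.card_product, Finset.card_product, Finset.card_powersetCard,
          Finset.card_powersetCard, hXc, hYc, Finset.card_image_of_injective _ Subtype.val_injective]
        have : Nat.choose 4 2 = 6 := by decide
        rw [this]; ring
      rw [← hT]
      apply Finset.card_le_card_of_surjOn (fun u => ((u.1 \ Y) ∪ X, u.1 ∩ X, u.1 ∩ Y))
      rintro ⟨s, P, Q⟩ hs
      simp only [T, Finset.coe_product, Set.mem_prod, Finset.mem_coe, Finset.mem_image] at hs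
      obtain ⟨⟨v, hv, rfl⟩, hP, hQ⟩ := hs
      refine ⟨⟨(v.1 \ X) ∪ P ∪ Q, hcardu v hv P hP Q hQ⟩, ?_, ?_⟩
      · rw [Finset.mem_coe, hM']
        exact ⟨v, hv, P, hP, Q, hQ, rfl⟩
      · rw [Finset.mem_powersetCard] at hP hQ
        have hb := blk hXr hYr (hXv v hv) (hYv v hv) hP.1 hQ.1
        exact Prod.ext hb.1 (Prod.ext hb.2.1 hb.2.2.1)
    have hne' : M'.Nonempty := by
      rw [← Finset.card_pos] at hMne ⊢
      omega
    have hpar : ∀ u, ∃ p : VT mm t, u ∈ M' → p ∈ M ∧ (u.1 \ p.1).card ≤ 2 := by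
      intro u
      by_cases hu : u ∈ M'
      · obtain ⟨v, hv, P, hP, Q, hQ, he⟩ := (hM' u).mp hu
        refine ⟨v, fun _ => ⟨hv, ?_⟩⟩
        rw [Finset.mem_powersetCard] at hP hQ
        have hsub : u.1 \ v.1 ⊆ Q := by
          rw [he]
          exact (blk hXr hYr (hXv v hv) (hYv v hv) hP.1 hQ.1).2.2.2.1
        have := Finset.card_le_card hsub
        omega
      · exact ⟨u, fun h => absurd h hu⟩
    choose par hpar using hpar
    refine ⟨M', U ∪ X, U' ∪ Y, ?_, ?_, ?_, ?_, ?_, hne', ?_, ?_⟩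
    · intro x hx
      rcases Finset.mem_union.mp hx with h | h
      · exact hU h
      · exact hXr x h
    · rw [Finset.disjoint_left] at hU' ⊢
      intro x hx
      rcases Finset.mem_union.mp hx with h | h
      · exact hU' h
      · exact hYr x h
    · rw [Finset.card_union_of_disjoint, hUc, hXc]
      · ring
      · rw [Finset.disjoint_left]
        intro x hx hxX
        exact hXU x hxX hx
    · rw [Finset.card_union_of_disjoint, hUc', hYc]
      · ring
      · rw [Finset.disjoint_left]
        intro x hx hxY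
        exact hYU x hxY hx
    · intro u hu
      obtain ⟨v, hv, P, hP, Q, hQ, he⟩ := (hM' u).mp hu
      rw [Finset.mem_powersetCard] at hP hQ
      have hvS := hMS hv
      rw [mem_Sph] at hvS ⊢
      have e : r.1 \ u.1 = (r.1 \ v.1) ∪ (X \ P) := by
        rw [he]
        exact (blk hXr hYr (hXv v hv) (hYv v hv) hP.1 hQ.1).2.2.2.2
      rw [e, Finset.card_union_of_disjoint, hvS, Finset.card_sdiff_of_subset hP.1, hXc, hP.2]
      · ring
      · rw [Finset.disjoint_left]
        intro x hx hxX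
        exact (Finset.mem_sdiff.mp hx).2 (hXv v hv x (Finset.mem_sdiff.mp hxX).1)
    · exact good_step r M M' hMg par (fun u hu => hpar u hu) hcard
    · intro u hu
      obtain ⟨v, hv, P, hP, Q, hQ, he⟩ := (hM' u).mp hu
      rw [Finset.mem_powersetCard] at hP hQ
      rw [he]
      exact blk2 (hMv v hv).1 (hMv v hv).2 hXr hP.1 hQ.1

lemma pre (r v : VT mm t) : ∃ w : VT mm t, (∃ i, 4 * i ≤ t ∧ (r.1 \ w.1).card = 2 * i) ∧
    ∀ q, PR (Pi.single v (8 * q)) (Pi.single w q : VT mm t → ℕ) := by
  -- step 1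
  have s1 : ∃ w : VT mm t, 2 * (r.1 \ w.1).card ≤ t ∧
      ∀ q, PR (Pi.single v (2 * q)) (Pi.single w q : VT mm t → ℕ) := by
    by_cases h : 2 * (r.1 \ v.1).card ≤ t
    · exact ⟨v, h, fun q => PR_of_le (single_mono (by omega))⟩
    · have hle : (r.1 \ v.1).card ≤ t := by
        have := Finset.card_le_card (Finset.sdiff_subset (s := r.1) (t := v.1))
        rw [r.2] at this; exact this
      have hsub : r.1 \ v.1 ⊆ (v.1)ᶜ := by
        intro x hx
        rw [Finset.mem_compl]
        exact (Finset.mem_sdiff.mp hx).2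
      have hc : t ≤ ((v.1)ᶜ).card := by
        have hm' := hm.out
        rw [Finset.card_compl, Fintype.card_fin, v.2]; omega
      obtain ⟨w, hw1, hw2, hwc⟩ := Finset.exists_subsuperset_card_eq hsub hle hc
      have hd : Disjoint v.1 w := by
        rw [Finset.disjoint_left]
        intro x hx hxw
        exact Finset.mem_compl.mp (hw2 hxw) hx
      refine ⟨⟨w, hwc⟩, ?_, fun q => PR_move (ne_of_disj (by omega) hd) hd q⟩
      have e : r.1 \ w ⊆ r.1 ∩ v.1 := by
        intro x hx
        rw [Finset.mem_sdiff] at hx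
        rw [Finset.mem_inter]
        refine ⟨hx.1, ?_⟩
        by_contra hxv
        exact hx.2 (hw1 (Finset.mem_sdiff.mpr ⟨hx.1, hxv⟩))
      have e1 := Finset.card_le_card e
      have e2 := Finset.card_sdiff_add_card_inter r.1 v.1
      rw [r.2] at e2
      simp only
      omega
  obtain ⟨w, hw, hq⟩ := s1
  rcases Nat.even_or_odd' (r.1 \ w.1).card with ⟨i, hi | hi⟩
  · refine ⟨w, ⟨i, by omega, hi⟩, fun q => ?_⟩
    have := hq (4 * q)
    have e : 8 * q = 2 * (4 * q) := by ring
    rw [e]
    exact PR_trans this (PR_of_le (single_mono (by omega)))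
  · have hpos : 0 < (r.1 \ w.1).card := by omega
    have hcard : (w.1 \ r.1).card = (r.1 \ w.1).card := by
      have e1 := Finset.card_sdiff_add_card_inter r.1 w.1
      have e2 := Finset.card_sdiff_add_card_inter w.1 r.1
      rw [Finset.inter_comm] at e2
      rw [r.2] at e1
      rw [w.2] at e2
      omega
    obtain ⟨a, ha⟩ := Finset.card_pos.mp hpos
    obtain ⟨b, hb⟩ := Finset.card_pos.mp (hcard ▸ hpos)
    rw [Finset.mem_sdiff] at ha hb
    have hab : a ∉ w.1.erase b := fun hx => ha.2 (Finset.mem_of_mem_erase hx)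
    have hwc : (insert a (w.1.erase b)).card = t := by
      rw [Finset.card_insert_of_notMem hab, Finset.card_erase_of_mem hb.1, w.2]
      have := Finset.card_pos.mpr ⟨b, hb.1⟩
      rw [w.2] at this
      omega
    refine ⟨⟨insert a (w.1.erase b), hwc⟩, ⟨i, by omega, ?_⟩, fun q => ?_⟩
    · have e : r.1 \ (insert a (w.1.erase b)) = (r.1 \ w.1).erase a := by
        ext x
        simp only [Finset.mem_sdiff, Finset.mem_insert, Finset.mem_erase]
        constructor
        · rintro ⟨h1, h2⟩
          push Not at h2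
          refine ⟨h2.1, h1, ?_⟩
          intro hxw
          apply h2.2 ?_ hxw
          rintro rfl
          exact hb.2 h1
        · rintro ⟨h1, h2, h3⟩
          refine ⟨h2, ?_⟩
          rintro (h | h)
          · exact h1 h
          · exact h3 h.2
      simp only
      rw [e, Finset.card_erase_of_mem (Finset.mem_sdiff.mpr ha), hi]
      omega
    · have hJ : (w.1 \ (insert a (w.1.erase b))).card ≤ 1 := by
        have : w.1 \ (insert a (w.1.erase b)) ⊆ {b} := by
          intro x hx
          simp at hx ⊢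
          by_contra hxa
          exact hx.2.2 hxa hx.1
        simpa using Finset.card_le_card this
      have := hq (4 * q)
      have e : 8 * q = 2 * (4 * q) := by ring
      rw [e]
      exact PR_trans this (PR_J1 (v := ⟨insert a (w.1.erase b), hwc⟩) hJ q)

lemma main_lemma (D : VT mm t → ℕ) (r : VT mm t) (hD : 224 * Nat.choose mm t ≤ ∑ x, D x) :
    PR D (Pi.single r 1) := by
  choose f hf1 hf2 using pre r
  have h1 := PR_transport Finset.univ f 8 (fun u _ q => hf2 u q) D
  set D1 : VT mm t → ℕ := ∑ u ∈ Finset.univ, Pi.single (f u) (D u / 8) with hD1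
  refine PR_trans h1 ?_
  have hn : Fintype.card (VT mm t) = Nat.choose mm t := by
    rw [Fintype.card_finset_len, Fintype.card_fin]
  have hpos : 0 < Nat.choose mm t := Nat.choose_pos (by have hm' := hm.out; omega)
  have hsum : ∑ v, D1 v = ∑ u, D u / 8 := by
    simp only [hD1, Finset.sum_apply]
    rw [Finset.sum_comm]
    apply Finset.sum_congr rfl
    intro u _
    rw [Finset.sum_eq_single (f u)]
    · simp
    · intro b _ hb
      rw [Pi.single_eq_of_ne hb]
    · intro h; exact absurd (Finset.mem_univ _) h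
  have hbig : 27 * Fintype.card (VT mm t) < ∑ v, D1 v := by
    rw [hsum]
    have : ∑ x, D x ≤ ∑ x : VT mm t, (8 * (D x / 8) + 7) := by
      apply Finset.sum_le_sum
      intro x _
      omega
    rw [Finset.sum_add_distrib, ← Finset.mul_sum, Finset.sum_const, smul_eq_mul,
      Finset.card_univ] at this
    rw [hn] at this ⊢
    omega
  have hex : ∃ i, 4 * i ≤ t ∧ 27 * (Sph r (2 * i)).card ≤ ∑ v ∈ Sph r (2 * i), D1 v := by
    by_contra hcon
    push Not at hcon
    have hmaps : ∀ v ∈ (Finset.univ : Finset (VT mm t)), (r.1 \ v.1).card ∈ Finset.range (t + 1) := by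
      intro v _
      rw [Finset.mem_range]
      have := Finset.card_le_card (Finset.sdiff_subset (s := r.1) (t := v.1))
      rw [r.2] at this
      omega
    have e1 := Finset.sum_fiberwise_of_maps_to hmaps (fun v => D1 v)
    have e2 := Finset.sum_fiberwise_of_maps_to hmaps (fun _ => 27)
    have hle : ∀ j ∈ Finset.range (t + 1),
        ∑ v ∈ Finset.univ.filter (fun v : VT mm t => (r.1 \ v.1).card = j), D1 v ≤
        ∑ v ∈ Finset.univ.filter (fun v : VT mm t => (r.1 \ v.1).card = j), 27 := by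
      intro j _
      by_cases hj : ∃ i, 4 * i ≤ t ∧ j = 2 * i
      · obtain ⟨i, hi, rfl⟩ := hj
        have := hcon i hi
        rw [Finset.sum_const, smul_eq_mul, Nat.mul_comm _ 27]
        exact le_of_lt this
      · rw [Finset.sum_eq_zero]
        · exact Nat.zero_le _
        · intro v hv
          rw [Finset.mem_filter] at hv
          simp only [hD1, Finset.sum_apply]
          apply Finset.sum_eq_zero
          intro u _
          rw [Pi.single_eq_of_ne]
          rintro rfl
          obtain ⟨i, hi, he⟩ := hf1 u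
          exact hj ⟨i, hi, by rw [← hv.2, he]⟩
    have e3 := Finset.sum_le_sum hle
    rw [e1, e2, Finset.sum_const, smul_eq_mul, Finset.card_univ] at e3
    omega
  obtain ⟨i, hi, hge⟩ := hex
  obtain ⟨M, U, U', -, -, -, -, hMS, -, hMg, -⟩ := exists_family r i hi
  obtain ⟨σ, hσ, hσD⟩ := averaging r (2 * i) M hMS 27 D1 hge
  exact hMg σ hσ D1 hσD

end Pool.Agent.Helper815.Pebble
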